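import Pool.Agent.Helper76.FT.GoalsC
import Pool.Agent.Helper68.FT.TorP

/-!
# FT-FROMPHI: from a solution of the Hamilton-Jacobi equation to a torus
-/

set_option autoImplicit false

namespace Pool.Agent.Helper69.FT

open Complex Set Filter Topology Metric
open Pool.Agent.Helper76.FT
open Pool.Agent.Helper32.FTNewton (isOpen_str diffAt sh_dz str_mono sh_mono sh_add sh_sub sh_const)
open Pool.Agent.Helper68.FT (strict mom_strict real_mem_str)

theorem convex_str (ρ : ℝ) : Convex ℝ (Str ρ) := by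
  have : Str ρ = {z : ℂ | z.im < ρ} ∩ {z : ℂ | -ρ < z.im} := by
    ext z
    simp only [Str, mem_ofPred_eq, abs_lt, mem_inter_iff]
    tauto
  rw [this]
  exact (convex_halfSpace_im_lt ρ).inter (convex_halfSpace_im_gt (-ρ))

theorem str_add_int {ρ : ℝ} {z : ℂ} (hz : z ∈ Str ρ) (m : ℤ) : z + m ∈ Str ρ := by
  have hz' : |z.im| < ρ := hz
  change |(z + (m:ℂ)).im| < ρ
  simpa using hz'

theorem per_int {f : ℂ → ℝ → ℂ} {ρ : ℝ} (h : SH f ρ) {z : ℂ} (hz : z ∈ Str ρ) {t : ℝ}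
    (ht : t ∈ Icc (0:ℝ) 1) (m : ℤ) : f (z + m) t = f z t := by
  induction m using Int.induction_on with
  | zero => simp
  | succ i ih =>
    have := h.per _ (str_add_int hz i) t ht
    rw [← ih, ← this]
    push_cast
    ring_nf
  | pred i ih =>
    have := h.per _ (str_add_int hz (-i - 1)) t ht
    rw [← ih, ← this]
    push_cast
    ring_nf

/-- mixed derivatives -/
theorem mixed {F G : ℂ → ℝ → ℂ} {ρ : ℝ} (hF : SH F ρ) (hG : SH G ρ)
    (h : ∀ z ∈ Str ρ, ∀ t ∈ Icc (0:ℝ) 1,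
      HasDerivWithinAt (fun s => F z s) (G z t) (Icc (0:ℝ) 1) t)
    {z : ℂ} (hz : z ∈ Str ρ) {t : ℝ} (ht : t ∈ Icc (0:ℝ) 1) :
    HasDerivWithinAt (fun s => dz F z s) (dz G z t) (Icc (0:ℝ) 1) t := by
  rw [hasDerivWithinAt_iff_tendsto_slope]
  have hQ : TendstoLocallyUniformlyOn (fun (s : ℝ) (z' : ℂ) => (s - t)⁻¹ • (F z' s - F z' t))
      (fun z' => G z' t) (𝓝[Icc (0:ℝ) 1 \ {t}] t) (Str ρ) := by
    rw [Metric.tendstoLocallyUniformlyOn_iff]
    intro ε hε x hx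
    have hc := hG.cont (x, t) ⟨hx, ht⟩
    rw [ContinuousWithinAt, Metric.tendsto_nhds] at hc
    have h1 := hc (ε/4) (by positivity)
    rw [nhdsWithin_prod_eq, Filter.eventually_prod_iff] at h1
    obtain ⟨pa, hpa, pb, hpb, hab⟩ := h1
    obtain ⟨r0, hr0, hr⟩ := Metric.mem_nhdsWithin_iff.1 hpb
    refine ⟨{y | pa y} ∩ Str ρ, inter_mem hpa self_mem_nhdsWithin, ?_⟩
    have hb1 : ball t r0 ∈ 𝓝[Icc (0:ℝ) 1 \ {t}] t := mem_nhdsWithin_of_mem_nhds
      (ball_mem_nhds t hr0)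
    filter_upwards [hb1, self_mem_nhdsWithin] with s hs1 hs2 y hy
    have hne : s ≠ t := fun h => hs2.2 (by simp [h])
    have key := ((convex_ball t r0).inter (convex_Icc (0:ℝ) 1)).norm_image_sub_le_of_norm_hasDerivWithin_le
      (f := fun τ => F y τ - τ • G y t) (f' := fun τ => G y τ - G y t) (C := ε / 2)
      (fun τ hτ => by
        have e1 := (h y hy.2 τ hτ.2).mono (inter_subset_right (s := ball t r0))
        have e2 : HasDerivWithinAt (fun τ : ℝ => τ • G y t) ((1:ℝ) • G y t)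
          (ball t r0 ∩ Icc (0:ℝ) 1) τ := (hasDerivWithinAt_id τ _).smul_const (G y t)
        rw [one_smul] at e2
        exact e1.sub e2)
      (fun τ hτ => by
        have e1 := hab hy.1 (hr hτ)
        have e2 := hab hy.1 (hr ⟨mem_ball_self hr0, ht⟩)
        simp only [dist_eq_norm] at e1 e2
        have e3 : G y τ - G y t = (G y τ - G x t) - (G y t - G x t) := by ring
        rw [e3]
        refine (norm_sub_le _ _).trans ?_
        linarith)
      ⟨mem_ball_self hr0, ht⟩ ⟨hs1, hs2.1⟩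
    have hne' : s - t ≠ 0 := sub_ne_zero.2 hne
    have e4 : G y t - (s - t)⁻¹ • (F y s - F y t) =
        -((s - t)⁻¹ • ((F y s - s • G y t) - (F y t - t • G y t))) := by
      have e5 : (F y s - s • G y t) - (F y t - t • G y t) = (F y s - F y t) - (s - t) • G y t := by
        rw [sub_smul]
        ring
      rw [e5, smul_sub (s - t)⁻¹ (F y s - F y t) ((s - t) • G y t), smul_smul,
        inv_mul_cancel₀ hne', one_smul]
      ring
    rw [dist_eq_norm, e4, norm_neg, norm_smul, norm_inv]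
    have hpos : 0 < ‖s - t‖ := norm_pos_iff.2 hne'
    rw [inv_mul_lt_iff₀ hpos]
    calc _ ≤ ε / 2 * ‖s - t‖ := key
      _ < ‖s - t‖ * ε := by nlinarith
  have hQd := hQ.deriv (by
    filter_upwards [self_mem_nhdsWithin] with s hs
    exact ((hF.hol s hs.1).sub (hF.hol t ht)).const_smul ((s - t)⁻¹)) (isOpen_str ρ)
  have hlim := hQd.tendsto_at hz
  refine hlim.congr' ?_
  filter_upwards [self_mem_nhdsWithin] with s hs
  have e1 := (diffAt hF hz hs.1).hasDerivAt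
  have e2 := (diffAt hF hz ht).hasDerivAt
  have e3 := ((e1.sub e2).const_smul ((s - t)⁻¹)).deriv
  simp only [Function.comp, slope, vsub_eq_sub]
  exact e3

theorem dz_En' {S : Sys} (hS : S.Ok) (hR : GReg) (hM : GMom) {ρ : ℝ} {w : ℂ → ℝ → ℂ}
    (hw : SH w ρ) {z : ℂ} (hz : z ∈ Str ρ) {t : ℝ} (ht : t ∈ Icc (0:ℝ) 1)
    (hmem : (z, w z t) ∈ S.Nb t S.r) :
    dz (fun z t => S.En t z (w z t)) z t = deriv (fun q => S.En t q (w z t)) z +
      w z t * S.κ (z - t * w z t) (w z t) * dz w z t := by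
  obtain ⟨k0, M, hk0, hMpos, -, -, hm⟩ := hM S hS
  obtain ⟨-, -, -, -, -, hop, -, -, -, -, -, -, -⟩ := hR S hS
  have hd : DifferentiableAt ℂ (fun z : ℂ × ℂ => S.En t z.1 z.2) (z, w z t) :=
    (hm t ht).2.1.differentiableAt ((hop t S.r).mem_nhds hmem)
  set L := fderiv ℂ (fun z : ℂ × ℂ => S.En t z.1 z.2) (z, w z t) with hL
  have hF := hd.hasFDerivAt
  rw [← hL] at hF
  have h1 : HasDerivAt (fun z' => (z', w z' t)) ((1 : ℂ), dz w z t) z :=
    (hasDerivAt_id z).prodMk (diffAt hw hz ht).hasDerivAt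
  have h2 : HasDerivAt (fun z' => S.En t z' (w z' t)) (L (1, dz w z t)) z :=
    HasFDerivAt.comp_hasDerivAt (l := fun z : ℂ × ℂ => S.En t z.1 z.2)
      (f := fun z' => (z', w z' t)) z hF h1
  have h3 : HasDerivAt (fun q => (q, w z t)) ((1 : ℂ), (0 : ℂ)) z :=
    (hasDerivAt_id z).prodMk (hasDerivAt_const z (w z t))
  have h4 : HasDerivAt (fun q => S.En t q (w z t)) (L (1, 0)) z :=
    HasFDerivAt.comp_hasDerivAt (l := fun z : ℂ × ℂ => S.En t z.1 z.2)
      (f := fun q => (q, w z t)) z hF h3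
  have h5 : HasDerivAt (fun v => (z, v)) ((0 : ℂ), (1 : ℂ)) (w z t) :=
    (hasDerivAt_const (w z t) z).prodMk (hasDerivAt_id (w z t))
  have h6 : HasDerivAt (fun v => S.En t z v) (L (0, 1)) (w z t) :=
    HasFDerivAt.comp_hasDerivAt (l := fun z : ℂ × ℂ => S.En t z.1 z.2)
      (f := fun v => (z, v)) (w z t) hF h5
  have h7 : L (0, 1) = w z t * S.κ (z - t * w z t) (w z t) :=
    h6.unique ((hm t ht).2.2 _ hmem).2.1
  have h8 : L (1, dz w z t) = L (1, 0) + dz w z t * L (0, 1) := by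
    have : ((1 : ℂ), dz w z t) = (1, 0) + (dz w z t) • ((0 : ℂ), (1 : ℂ)) := by
      simp
    rw [this, map_add, map_smul, smul_eq_mul]
  have h9 : dz (fun z t => S.En t z (w z t)) z t = L (1, dz w z t) := h2.deriv
  rw [h9, h8, h7, h4.deriv]
  ring

/-- Burgers equation -/
theorem burgers' {S : Sys} (hS : S.Ok) (hR : GReg) (hM : GMom) {ρ : ℝ} {w : ℂ → ℝ → ℂ}
    (hw : SH w ρ) {z : ℂ} (hz : z ∈ Str ρ) {t : ℝ} (ht : t ∈ Icc (0:ℝ) 1)
    (hmem : (z, w z t) ∈ S.Nb t S.r)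
    (hP : HasDerivWithinAt (fun s => S.p s z (w z s))
      (-dz (fun z t => S.En t z (w z t)) z t) (Icc (0:ℝ) 1) t) :
    HasDerivWithinAt (fun s => w z s) (-(w z t * dz w z t)) (Icc (0:ℝ) 1) t := by
  rw [dz_En' hS hR hM hw hz ht hmem] at hP
  have hM' := hM
  obtain ⟨k0, M, hk0, hMpos, -, -, hm⟩ := hM S hS
  obtain ⟨-, -, h1, h2, -⟩ := (hm t ht).2.2 _ hmem
  set κ₀ := S.κ (z - t * w z t) (w z t) with hκ
  simp only at h1 h2
  have hκ0 : κ₀ ≠ 0 := by
    intro h0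
    have : k0 ≤ (0:ℂ).re := by rw [← h0]; exact h2
    simp at this
    linarith
  have hg := hP.sub h1
  have hgd : (-(deriv (fun q => S.En t q (w z t)) z + w z t * κ₀ * dz w z t) -
      -deriv (fun q => S.En t q (w z t)) z) = κ₀ * (-(w z t * dz w z t)) := by ring
  rw [hgd] at hg
  set f : ℝ → ℂ := fun s => w z s - w z t with hf
  set g : ℝ → ℂ := fun s => S.p s z (w z s) - S.p s z (w z t) with hgdef
  have hg' : HasDerivWithinAt g (κ₀ * (-(w z t * dz w z t))) (Icc (0:ℝ) 1) t := hg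
  have hg0 : g t = 0 := by simp [hgdef]
  have hgO : g =O[𝓝[Icc (0:ℝ) 1] t] fun s => s - t := by
    have := (HasDerivAtFilter.isBigO_sub hg').comp_tendsto (k := fun s : ℝ => (s, t))
        (tendsto_id.prodMk tendsto_const_pure)
    refine this.congr_left ?_
    intro s
    simp [hg0]
  have hcw : Tendsto (fun s => w z s) (𝓝[Icc (0:ℝ) 1] t) (𝓝 (w z t)) := by
    have hc := hw.cont (z, t) ⟨hz, ht⟩
    have hmap : Tendsto (fun s : ℝ => (z, s)) (𝓝[Icc (0:ℝ) 1] t)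
        (𝓝[Str ρ ×ˢ Icc (0:ℝ) 1] (z, t)) := by
      refine tendsto_nhdsWithin_iff.2 ⟨?_, ?_⟩
      · have : Continuous (fun s : ℝ => (z, s)) := by fun_prop
        exact (this.tendsto t).mono_left nhdsWithin_le_nhds
      · filter_upwards [self_mem_nhdsWithin] with s hs
        exact ⟨hz, hs⟩
    exact hc.tendsto.comp hmap
  have ho : (fun s => g s - κ₀ * f s) =o[𝓝[Icc (0:ℝ) 1] t] f := by
    rw [Asymptotics.isLittleO_iff]
    intro ε hε
    obtain ⟨r0, hr0, hev⟩ := mom_strict hS hR hM' ht hmem hε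
    filter_upwards [hev, hcw (ball_mem_nhds _ hr0)] with s hs hs2
    exact hs _ (mem_ball_self hr0) _ hs2
  have ho2 : (fun s => κ₀ * f s - g s) =o[𝓝[Icc (0:ℝ) 1] t] fun s => κ₀ * f s := by
    have e1 : (fun s => κ₀ * f s - g s) = fun s => -(g s - κ₀ * f s) := by
      funext s
      ring
    rw [e1]
    refine ho.neg_left.trans_isBigO ?_
    exact Asymptotics.isBigO_self_const_mul hκ0 f _
  have hfO : (fun s => κ₀ * f s) =O[𝓝[Icc (0:ℝ) 1] t] g := by
    refine ho2.right_isBigO_sub.congr_right ?_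
    intro s
    ring
  have hfO' : f =O[𝓝[Icc (0:ℝ) 1] t] fun s => s - t :=
    ((Asymptotics.isBigO_self_const_mul hκ0 f _).trans hfO).trans hgO
  have ho3 : (fun s => g s - κ₀ * f s) =o[𝓝[Icc (0:ℝ) 1] t] fun s => s - t :=
    ho.trans_isBigO hfO'
  have hgl := (hasDerivWithinAt_iff_isLittleO.1 hg')
  rw [hasDerivWithinAt_iff_isLittleO]
  have h5 := (hgl.sub ho3).const_mul_left κ₀⁻¹
  refine h5.congr_left ?_
  intro s
  rw [hg0]
  simp only [hf, Complex.real_smul]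
  field_simp
  ring

/-- straight lines -/
theorem line_of {w : ℂ → ℝ → ℂ} {ρ : ℝ} (hw : SH w ρ)
    (hb : ∀ z ∈ Str ρ, ∀ t ∈ Icc (0:ℝ) 1,
      HasDerivWithinAt (fun s => w z s) (-(w z t * dz w z t)) (Icc (0:ℝ) 1) t)
    {z : ℂ} (hz : z ∈ Str ρ) {s t : ℝ} (hs : s ∈ Icc (0:ℝ) 1) (ht : t ∈ Icc (0:ℝ) 1)
    (hzs : z + (s - t) * w z t ∈ Str ρ) : w (z + (s - t) * w z t) s = w z t := by
  set w0 := w z t with hw0
  set τ : ℝ → ℝ := fun θ => t + θ * (s - t) with hτ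
  set y : ℝ → ℂ := fun θ => z + θ * ((s - t) * w0) with hy
  have hτm : ∀ θ ∈ Icc (0:ℝ) 1, τ θ ∈ Icc (0:ℝ) 1 := by
    intro θ hθ
    have := (convex_Icc (0:ℝ) 1) ht hs (sub_nonneg.2 hθ.2) hθ.1 (by ring)
    have e : τ θ = (1 - θ) • t + θ • s := by
      simp only [hτ, smul_eq_mul]
      ring
    rw [e]
    exact this
  have hym : ∀ θ ∈ Icc (0:ℝ) 1, y θ ∈ Str ρ := by
    intro θ hθ
    have := (convex_str ρ) hz hzs (sub_nonneg.2 hθ.2) hθ.1 (by ring)
    have e : y θ = (1 - θ) • z + θ • (z + (s - t) * w0) := by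
      simp only [hy, Complex.real_smul]
      push_cast
      ring
    rw [e]
    exact this
  have hyc : Continuous y := by
    simp only [hy]
    fun_prop
  have hτc : Continuous τ := by
    simp only [hτ]
    fun_prop
  have hmapT : ∀ θ ∈ Icc (0:ℝ) 1, Tendsto τ (𝓝[Icc (0:ℝ) 1] θ) (𝓝[Icc (0:ℝ) 1] (τ θ)) := by
    intro θ hθ
    refine tendsto_nhdsWithin_iff.2 ⟨(hτc.tendsto θ).mono_left nhdsWithin_le_nhds, ?_⟩
    filter_upwards [self_mem_nhdsWithin] with θ' hθ'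
    exact hτm θ' hθ'
  have hder : ∀ θ ∈ Icc (0:ℝ) 1, HasDerivWithinAt (fun θ => w (y θ) (τ θ))
      (-(((s - t : ℝ) : ℂ) * dz w (y θ) (τ θ) * (w (y θ) (τ θ) - w0))) (Icc (0:ℝ) 1) θ := by
    intro θ hθ
    -- the part with fixed position
    have hyd : HasDerivAt y (((s - t : ℝ) : ℂ) * w0) θ := by
      have := ((Complex.ofRealCLM.hasDerivAt (x := θ)).mul_const ((s - t) * w0)).const_add z
      simp only [Complex.ofRealCLM_apply, Complex.ofReal_one, one_mul] at this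
      push_cast
      exact this
    have hτd : HasDerivWithinAt τ (s - t) (Icc (0:ℝ) 1) θ := by
      have := (((hasDerivAt_id θ).mul_const (s - t)).const_add t)
      simp only [id, one_mul] at this
      exact this.hasDerivWithinAt
    have hA : HasDerivWithinAt (fun θ' => w (y θ) (τ θ'))
        ((s - t) • (-(w (y θ) (τ θ) * dz w (y θ) (τ θ)))) (Icc (0:ℝ) 1) θ :=
      HasDerivWithinAt.scomp θ (hb (y θ) (hym θ hθ) (τ θ) (hτm θ hθ)) hτd hτm
    have hB : HasDerivWithinAt (fun θ' => w (y θ') (τ θ') - w (y θ) (τ θ'))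
        (dz w (y θ) (τ θ) * (((s - t : ℝ) : ℂ) * w0)) (Icc (0:ℝ) 1) θ := by
      have hB1 : (fun θ' => w (y θ') (τ θ') - w (y θ) (τ θ') -
          dz w (y θ) (τ θ) * (y θ' - y θ)) =o[𝓝[Icc (0:ℝ) 1] θ] fun θ' => y θ' - y θ := by
        rw [Asymptotics.isLittleO_iff]
        intro ε hε
        obtain ⟨r0, hr0, hev⟩ := strict hw (hym θ hθ) (hτm θ hθ) hε
        have h2 := (hmapT θ hθ).eventually hev
        have h3 : ∀ᶠ θ' in 𝓝[Icc (0:ℝ) 1] θ, y θ' ∈ ball (y θ) r0 :=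
          ((hyc.tendsto θ).mono_left nhdsWithin_le_nhds) (ball_mem_nhds _ hr0)
        filter_upwards [h2, h3] with θ' h4 h5
        exact h4 _ (mem_ball_self hr0) _ h5
      have hyO : (fun θ' => y θ' - y θ) =O[𝓝[Icc (0:ℝ) 1] θ] fun θ' => θ' - θ :=
        (hyd.isBigO_sub).mono nhdsWithin_le_nhds
      have hB2 := hB1.trans_isBigO hyO
      have hB3 : HasDerivWithinAt (fun θ' => w (y θ') (τ θ') - w (y θ) (τ θ') -
          dz w (y θ) (τ θ) * (y θ' - y θ)) 0 (Icc (0:ℝ) 1) θ := by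
        rw [hasDerivWithinAt_iff_isLittleO]
        refine hB2.congr_left ?_
        intro θ'
        simp
      have hB4 : HasDerivWithinAt (fun θ' => dz w (y θ) (τ θ) * (y θ' - y θ))
          (dz w (y θ) (τ θ) * (((s - t : ℝ) : ℂ) * w0)) (Icc (0:ℝ) 1) θ :=
        ((hyd.sub_const (y θ)).const_mul _).hasDerivWithinAt
      have hB5 := hB3.add hB4
      refine (hB5.congr_deriv (by ring)).congr_of_eventuallyEq ?_ ?_
      · filter_upwards with θ'
        simp only [Pi.add_apply]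
        ring
      · simp only [Pi.add_apply]
        ring
    have hC := hB.add hA
    refine (hC.congr_deriv ?_).congr_of_eventuallyEq ?_ ?_
    · rw [Complex.real_smul]
      ring
    · filter_upwards with θ'
      simp only [Pi.add_apply]
      ring
    · simp only [Pi.add_apply]
      ring
  have hcd : ContinuousOn (fun θ : ℝ => dz w (y θ) (τ θ)) (Icc (0:ℝ) 1) := by
    have h1 := (sh_dz hw).cont
    have h2 : ContinuousOn (fun θ : ℝ => (y θ, τ θ)) (Icc (0:ℝ) 1) :=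
      (hyc.prodMk hτc).continuousOn
    exact ContinuousOn.comp (g := fun q : ℂ × ℝ => dz w q.1 q.2)
      (f := fun θ : ℝ => (y θ, τ θ)) h1 h2 (fun θ hθ => ⟨hym θ hθ, hτm θ hθ⟩)
  obtain ⟨B, hB⟩ := isCompact_Icc.exists_bound_of_continuousOn hcd
  have hzero := eq_zero_of_abs_deriv_le_mul_abs_self_of_eq_zero_right
    (f := fun θ => w (y θ) (τ θ) - w0)
    (f' := fun θ => -(((s - t : ℝ) : ℂ) * dz w (y θ) (τ θ) * (w (y θ) (τ θ) - w0)))
    (K := ‖((s - t : ℝ) : ℂ)‖ * B) (a := 0) (b := 1)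
    (fun θ hθ => ((hder θ hθ).continuousWithinAt).sub continuousWithinAt_const)
    (fun θ hθ => by
      have h1 := (hder θ ⟨hθ.1, hθ.2.le⟩).sub_const w0
      refine h1.mono_of_mem_nhdsWithin ?_
      exact mem_nhdsWithin_iff_exists_mem_nhds_inter.2 ⟨Iio 1, Iio_mem_nhds hθ.2, fun x hx => ⟨hθ.1.trans hx.2, le_of_lt hx.1⟩⟩)
    (by simp [hy, hτ, hw0])
    (fun θ hθ => by
      rw [norm_neg, norm_mul, norm_mul]
      have := hB θ ⟨hθ.1, hθ.2.le⟩
      gcongr)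
    1 ⟨zero_le_one, le_rfl⟩
  have hz1 : w (y 1) (τ 1) = w0 := by
    exact sub_eq_zero.1 hzero
  have ey : y 1 = z + (s - t) * w0 := by
    simp [hy]
  have eτ : τ 1 = s := by
    simp [hτ]
  rw [ey, eτ] at hz1
  exact hz1

theorem nb_int {S : Sys} (hS : S.Ok) (hR : GReg) {r t : ℝ} (ht : t ∈ Icc (0:ℝ) 1) {z v : ℂ}
    (h : (z, v) ∈ S.Nb t r) (m : ℤ) : (z + m, v) ∈ S.Nb t r := by
  obtain ⟨-, -, -, -, -, -, -, hinv, -⟩ := hR S hS
  induction m using Int.induction_on with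
  | zero => simpa using h
  | succ i ih =>
    have := (hinv r t ht _ ih).1
    simp only at this
    convert this using 2
    push_cast
    ring
  | pred i ih =>
    have := (hinv r t ht _ ih).2.1
    simp only at this
    convert this using 2
    push_cast
    ring

/-- smaller strip -/
theorem shrink {S : Sys} (hS : S.Ok) (hR : GReg) {ρ r₃ : ℝ} {w : ℂ → ℝ → ℂ} (hρ : 0 < ρ)
    (hw : SH w ρ)
    (hreal : ∀ x : ℝ, ∀ t ∈ Icc (0:ℝ) 1, ((x:ℂ), w (x:ℂ) t) ∈ S.Nb t r₃) :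
    ∃ ρ' : ℝ, 0 < ρ' ∧ ρ' ≤ ρ ∧ ∀ z ∈ Str ρ', ∀ t ∈ Icc (0:ℝ) 1, (z, w z t) ∈ S.Nb t r₃ := by
  have hR' := hR
  obtain ⟨-, -, -, -, -, -, hjo, hinv, -⟩ := hR S hS
  have hK : IsCompact ((Icc (0:ℝ) 1) ×ˢ (Icc (0:ℝ) 1)) := isCompact_Icc.prod isCompact_Icc
  have hev := hK.eventually_forall_of_forall_eventually (x₀ := (0:ℝ))
    (P := fun (η : ℝ) (y : ℝ × ℝ) => y.2 ∈ Icc (0:ℝ) 1 →
      ((y.1 : ℂ) + η * I, w ((y.1:ℂ) + η * I) y.2) ∈ S.Nb y.2 r₃)
    (by
      rintro ⟨x, t⟩ ⟨hx, ht⟩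
      simp only at ht
      have hc0 : Continuous (fun q : ℝ × (ℝ × ℝ) => ((q.2.1 : ℂ) + q.1 * I)) := by fun_prop
      have hz0 : Tendsto (fun q : ℝ × (ℝ × ℝ) => ((q.2.1 : ℂ) + q.1 * I))
          (𝓝 ((0:ℝ), (x, t))) (𝓝 (x:ℂ)) := by
        have := hc0.tendsto ((0:ℝ), (x, t))
        simpa using this
      have hstr : ∀ᶠ q : ℝ × (ℝ × ℝ) in 𝓝 ((0:ℝ), (x, t)), ((q.2.1 : ℂ) + q.1 * I) ∈ Str ρ :=
        hz0 ((isOpen_str ρ).mem_nhds (real_mem_str hρ x))
      have hm1 : Tendsto (fun q : ℝ × (ℝ × ℝ) => ((q.2.1 : ℂ) + q.1 * I, q.2.2))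
          (𝓝[{q : ℝ × (ℝ × ℝ) | q.2.2 ∈ Icc (0:ℝ) 1}] ((0:ℝ), (x, t)))
          (𝓝[Str ρ ×ˢ Icc (0:ℝ) 1] ((x:ℂ), t)) := by
        refine tendsto_nhdsWithin_iff.2 ⟨?_, ?_⟩
        · have h2 : Tendsto (fun q : ℝ × (ℝ × ℝ) => q.2.2) (𝓝 ((0:ℝ), (x, t))) (𝓝 t) := by
            have : Continuous (fun q : ℝ × (ℝ × ℝ) => q.2.2) := by fun_prop
            exact this.tendsto ((0:ℝ), (x, t))
          exact (hz0.prodMk_nhds h2).mono_left nhdsWithin_le_nhds
        · filter_upwards [self_mem_nhdsWithin, mem_nhdsWithin_of_mem_nhds hstr] with q h1 h2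
          exact ⟨h2, h1⟩
      have hm2 := (hw.cont ((x:ℂ), t) ⟨real_mem_str hρ x, ht⟩).tendsto.comp hm1
      have hm3 : Tendsto (fun q : ℝ × (ℝ × ℝ) =>
          (q.2.2, (((q.2.1 : ℂ) + q.1 * I), w ((q.2.1 : ℂ) + q.1 * I) q.2.2)))
          (𝓝[{q : ℝ × (ℝ × ℝ) | q.2.2 ∈ Icc (0:ℝ) 1}] ((0:ℝ), (x, t)))
          (𝓝[Icc (0:ℝ) 1 ×ˢ univ] (t, ((x:ℂ), w (x:ℂ) t))) := by
        refine tendsto_nhdsWithin_iff.2 ⟨?_, ?_⟩
        · have h2 : Tendsto (fun q : ℝ × (ℝ × ℝ) => q.2.2)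
              (𝓝[{q : ℝ × (ℝ × ℝ) | q.2.2 ∈ Icc (0:ℝ) 1}] ((0:ℝ), (x, t))) (𝓝 t) := by
            have : Continuous (fun q : ℝ × (ℝ × ℝ) => q.2.2) := by fun_prop
            exact (this.tendsto ((0:ℝ), (x, t))).mono_left nhdsWithin_le_nhds
          exact h2.prodMk_nhds ((hz0.mono_left nhdsWithin_le_nhds).prodMk_nhds hm2)
        · filter_upwards [self_mem_nhdsWithin] with q h1
          exact ⟨h1, mem_univ _⟩
      have h2 := hm3.eventually (hjo r₃ t ht _ (hreal x t ht))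
      rw [eventually_nhdsWithin_iff] at h2
      exact h2)
  obtain ⟨ε, hε, hball⟩ := Metric.eventually_nhds_iff_ball.1 hev
  refine ⟨min ε ρ, lt_min hε hρ, min_le_right _ _, ?_⟩
  intro z hz t ht
  have hz0 : |z.im| < min ε ρ := hz
  have hz1 : |z.im| < ε := lt_of_lt_of_le hz0 (min_le_left _ _)
  have hz2 : z ∈ Str ρ := lt_of_lt_of_le hz0 (min_le_right _ _)
  have h1 := hball z.im (by simpa [Metric.mem_ball, Real.dist_eq] using hz1)
    (Int.fract z.re, t) ⟨⟨Int.fract_nonneg _, (Int.fract_lt_one _).le⟩, ht⟩ ht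
  simp only at h1
  have e1 : ((Int.fract z.re : ℝ) : ℂ) + z.im * I + (⌊z.re⌋ : ℂ) = z := by
    have e2 : ((Int.fract z.re : ℝ) : ℂ) = (z.re : ℂ) - (⌊z.re⌋ : ℂ) := by
      rw [Int.fract]
      push_cast
      ring
    rw [e2]
    have e3 := Complex.re_add_im z
    linear_combination e3
  have hz' : ((Int.fract z.re : ℝ) : ℂ) + z.im * I ∈ Str ρ := by
    have : |z.im| < ρ := hz2
    simpa [Str] using this
  have h2 := nb_int hS hR' ht h1 ⌊z.re⌋
  have h3 := per_int hw hz' ht ⌊z.re⌋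
  rw [← h3, e1] at h2
  exact h2

/-- identity theorem -/
theorem ident {f g : ℂ → ℂ} {ρ : ℝ} (hρ : 0 < ρ) (hf : DifferentiableOn ℂ f (Str ρ))
    (hg : DifferentiableOn ℂ g (Str ρ)) (h : ∀ x : ℝ, f x = g x) : ∀ z ∈ Str ρ, f z = g z := by
  have hf' := hf.analyticOnNhd (isOpen_str ρ)
  have hg' := hg.analyticOnNhd (isOpen_str ρ)
  have h0 : (0:ℂ) ∈ Str ρ := by simpa using real_mem_str hρ 0
  refine hf'.eqOn_of_preconnected_of_frequently_eq hg' (convex_str ρ).isPreconnected h0 ?_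
  have hm : Tendsto (fun x : ℝ => (x:ℂ)) (𝓝[≠] (0:ℝ)) (𝓝[≠] (0:ℂ)) := by
    refine tendsto_nhdsWithin_iff.2 ⟨?_, ?_⟩
    · have := (Complex.continuous_ofReal.tendsto (0:ℝ)).mono_left
        (nhdsWithin_le_nhds (s := {(0:ℝ)}ᶜ))
      simpa using this
    · filter_upwards [self_mem_nhdsWithin] with x hx
      simpa using hx
  exact hm.frequently (Filter.Eventually.frequently (Eventually.of_forall fun x => h x))

theorem ft_fromphi : GReg → GMom → GE → GFromPhi := by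
  intro hR hM hE S hS W r₂ r₃ M k₀ hW
  have hR' := hR
  obtain ⟨hleaf, hreg, -, -, -, hop, -, -, -⟩ := hR S hS
  obtain ⟨hEc, -, hE3⟩ := hE S hS W r₂ r₃ M k₀ hW
  obtain ⟨MK, hMK, -⟩ := hS.Kbd
  have hr := hS.hr
  have hr3 := hW.h3
  set L : ℝ := (2 * |MK| + 1) / S.r with hL
  have hLpos : 0 < L := by positivity
  refine ⟨min (r₃ / 2) (min (S.r / 2) (r₃ / (2 * L))), by positivity, ?_⟩
  intro δ ρ φ e c hδ hρ hφ hreal
  have hδ1 : δ ≤ r₃ / 2 := hδ.trans (min_le_left _ _)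
  have hδ2 : δ ≤ S.r / 2 := hδ.trans ((min_le_right _ _).trans (min_le_left _ _))
  have hδ3 : δ ≤ r₃ / (2 * L) := hδ.trans ((min_le_right _ _).trans (min_le_right _ _))
  have h0 : (0:ℝ) ∈ Icc (0:ℝ) 1 := ⟨le_rfl, zero_le_one⟩
  have h1 : (1:ℝ) ∈ Icc (0:ℝ) 1 := ⟨zero_le_one, le_rfl⟩
  set P : ℂ → ℝ → ℂ := fun z t => c + dz φ z t with hPdef
  set w : ℂ → ℝ → ℂ := fun z t => W t z (P z t) with hwdef
  have hP : SH P ρ := sh_add (sh_const c ρ) (sh_dz hφ.sh)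
  have hdom : ∀ z ∈ Str ρ, ∀ t ∈ Icc (0:ℝ) 1, (z, P z t) ∈ Pb S t r₂ := hφ.dom
  have hmap : ContinuousOn (fun q : ℂ × ℝ => (q.2, (q.1, P q.1 q.2))) (Str ρ ×ˢ Icc (0:ℝ) 1) :=
    continuousOn_snd.prodMk (continuousOn_fst.prodMk hP.cont)
  have hw : SH w ρ := by
    refine ⟨fun t ht => ?_, ?_, ?_⟩
    · exact (hW.hol t ht).comp (differentiableOn_id.prodMk (hP.hol t ht))
        (fun z hz => hdom z hz t ht)
    · have h := ContinuousOn.comp (g := fun y : ℝ × (ℂ × ℂ) => W y.1 y.2.1 y.2.2)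
        (f := fun q : ℂ × ℝ => (q.2, (q.1, P q.1 q.2))) hW.cont hmap
        (fun q hq => ⟨hq.2, hdom q.1 hq.1 q.2 hq.2⟩)
      simpa only [Function.comp_def] using h
    · intro z hz t ht
      simp only [hwdef]
      rw [hP.per z hz t ht]
      exact (hW.per t ht _ (hdom z hz t ht)).2
  have hEf : SH (fun z t => Ef W t z (P z t)) ρ := by
    refine ⟨fun t ht => ?_, ?_, ?_⟩
    · exact (hE3 t ht).1.comp (differentiableOn_id.prodMk (hP.hol t ht))
        (fun z hz => hdom z hz t ht)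
    · have h := ContinuousOn.comp (g := fun y : ℝ × (ℂ × ℂ) => Ef W y.1 y.2.1 y.2.2)
        (f := fun q : ℂ × ℝ => (q.2, (q.1, P q.1 q.2))) hEc hmap
        (fun q hq => ⟨hq.2, hdom q.1 hq.1 q.2 hq.2⟩)
      simpa only [Function.comp_def] using h
    · intro z hz t ht
      rw [hP.per z hz t ht]
      exact ((hE3 t ht).2.1 _ (hdom z hz t ht)).2
  have hG : SH (fun z t => e - Ef W t z (P z t)) ρ := sh_sub (sh_const e ρ) hEf
  have hnb : ∀ z ∈ Str ρ, ∀ t ∈ Icc (0:ℝ) 1, (z, w z t) ∈ S.Nb t S.r :=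
    fun z hz t ht => (hW.pW t ht _ (hdom z hz t ht)).1
  have hpw : ∀ z ∈ Str ρ, ∀ t ∈ Icc (0:ℝ) 1, S.p t z (w z t) = P z t :=
    fun z hz t ht => (hW.pW t ht _ (hdom z hz t ht)).2
  have hrm : ∀ x : ℝ, (x:ℂ) ∈ Str ρ := real_mem_str hρ
  -- distance to the real part
  have hdist : ∀ x : ℝ, ∀ t ∈ Icc (0:ℝ) 1, ‖w (x:ℂ) t - (((w (x:ℂ) t).re : ℝ) : ℂ)‖ ≤ δ := by
    intro x t ht
    have h2 := (hreal x t ht)
    have e1 : w (x:ℂ) t - (((w (x:ℂ) t).re : ℝ) : ℂ) = ((w (x:ℂ) t).im : ℂ) * I := by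
      have := Complex.re_add_im (w (x:ℂ) t)
      linear_combination -this
    rw [e1, norm_mul, Complex.norm_I, mul_one, Complex.norm_real, Real.norm_eq_abs,
      abs_of_pos h2.1]
    exact h2.2.1
  obtain ⟨ρ', hρ', hρρ, hnb3⟩ := shrink hS hR' hρ hw (r₃ := r₃) (by
    intro x t ht
    refine ⟨(x, (w (x:ℂ) t).re), (hreal x t ht).2.2, ?_, ?_⟩
    · simpa using hr3
    · have := hdist x t ht
      linarith)
  have hsub : Str ρ' ⊆ Str ρ := str_mono hρρ
  refine ⟨ρ', hρ', hρρ, ?_⟩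
  have hw' : SH w ρ' := sh_mono hw hρρ
  have hburg : ∀ z ∈ Str ρ', ∀ t ∈ Icc (0:ℝ) 1,
      HasDerivWithinAt (fun s => w z s) (-(w z t * dz w z t)) (Icc (0:ℝ) 1) t := by
    intro z hz t ht
    refine burgers' hS hR' hM hw' hz ht (hnb z (hsub hz) t ht) ?_
    have h2 := (mixed hφ.sh hG hφ.eq (hsub hz) ht).const_add c
    have e1 : dz (fun z t => e - Ef W t z (P z t)) z t =
        -dz (fun z t => S.En t z (w z t)) z t := by
      unfold dz
      have e2 : (fun z' => e - Ef W t z' (P z' t)) =ᶠ[𝓝 z] fun z' => e - S.En t z' (w z' t) := by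
        filter_upwards [(isOpen_str ρ').mem_nhds hz] with z' hz'
        have e3 := (hE3 t ht).2.2 (z', w z' t) (hnb3 z' hz' t ht)
        simp only at e3
        rw [hpw z' (hsub hz') t ht] at e3
        rw [e3]
      rw [e2.deriv_eq]
      simp
    rw [e1] at h2
    refine h2.congr_of_mem ?_ ht
    intro s hs
    exact hpw z (hsub hz) s hs
  -- kick on the real line
  have hPP : ∀ z ∈ Str ρ, P z 1 = P z 0 := by
    intro z hz
    simp only [hPdef, dz]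
    congr 1
    apply Filter.EventuallyEq.deriv_eq
    filter_upwards [(isOpen_str ρ).mem_nhds hz] with z' hz'
    exact hφ.close z' hz'
  have hkr : ∀ x : ℝ, w (x:ℂ) 0 = S.K (x:ℂ) (w (x:ℂ) 1) := by
    intro x
    obtain ⟨Y, hY, hYv⟩ := hleaf 1 h1 _ (hreal x 1 h1).2.2
    simp only at hYv
    have hv : ‖w (x:ℂ) 1 - ((S.V Y x 1 : ℝ) : ℂ)‖ ≤ δ := by
      rw [← hYv]
      exact hdist x 1 h1
    have hballs : ∀ v ∈ ball ((S.V Y x 1 : ℝ) : ℂ) S.r, ((x:ℂ), v) ∈ S.Nb 1 S.r := by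
      intro v hv
      refine ⟨(x, S.V Y x 1), hreg 1 h1 x Y hY, ?_, ?_⟩
      · simpa using hr
      · simpa [dist_eq_norm] using hv
    have hd : DifferentiableOn ℂ (fun v => S.K (x:ℂ) v) (ball ((S.V Y x 1 : ℝ) : ℂ) S.r) :=
      hS.Khol.comp ((differentiableOn_const _).prodMk differentiableOn_id)
        (fun v hv => hballs v hv)
    have hmaps : MapsTo (fun v => S.K (x:ℂ) v) (ball ((S.V Y x 1 : ℝ) : ℂ) S.r)
        (closedBall ((fun v => S.K (x:ℂ) v) ((S.V Y x 1 : ℝ) : ℂ)) (2 * |MK| + 1)) := by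
      intro v hv
      have e1 := hMK _ (hballs v hv)
      have e2 := hMK _ (hballs _ (mem_ball_self hr))
      simp only at e1 e2
      rw [mem_closedBall, dist_eq_norm]
      refine (norm_sub_le _ _).trans ?_
      have := le_abs_self MK
      linarith
    have hwb : w (x:ℂ) 1 ∈ ball ((S.V Y x 1 : ℝ) : ℂ) S.r := by
      rw [mem_ball, dist_eq_norm]
      linarith
    have hest := Complex.dist_le_div_mul_dist_of_mapsTo_ball hd hmaps hwb
    simp only [dist_eq_norm] at hest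
    rw [hS.KV Y hY x] at hest
    have hest2 : ‖S.K (x:ℂ) (w (x:ℂ) 1) - ((S.V Y x 0 : ℝ) : ℂ)‖ < r₃ := by
      refine lt_of_le_of_lt hest ?_
      calc (2 * |MK| + 1) / S.r * ‖w (x:ℂ) 1 - ((S.V Y x 1 : ℝ) : ℂ)‖ ≤ L * (r₃ / (2 * L)) := by
            rw [← hL]
            gcongr
            exact hv.trans hδ3
        _ = r₃ / 2 := by field_simp
        _ < r₃ := by linarith
    have hin : ((x:ℂ), S.K (x:ℂ) (w (x:ℂ) 1)) ∈ S.Nb 0 r₃ :=
      ⟨(x, S.V Y x 0), hreg 0 h0 x Y hY, by simpa using hr3, hest2⟩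
    have e1 := (hW.Wp 0 h0 _ hin).2
    simp only at e1
    have e2 := hS.kick _ (hnb _ (hrm x) 1 h1)
    simp only at e2
    rw [e2, hpw _ (hrm x) 1 h1, hPP _ (hrm x)] at e1
    exact e1
  refine ⟨hρ', hw', fun z hz t ht => hnb z (hsub hz) t ht, ?_, ?_, ?_, ?_, ?_⟩
  · intro z hz s hs t ht hzs
    exact line_of hw' hburg hz hs ht hzs
  · intro z hz
    have hK1 : DifferentiableOn ℂ (fun z => S.K z (w z 1)) (Str ρ) :=
      hS.Khol.comp (differentiableOn_id.prodMk (hw.hol 1 h1)) (fun z hz => hnb z hz 1 h1)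
    exact ident hρ (hw.hol 0 h0) hK1 hkr z (hsub hz)
  · intro x t ht
    exact ⟨(hreal x t ht).1, (hreal x t ht).2.1⟩
  · intro x t ht
    exact (hreal x t ht).2.2
  · have e1 : ∀ x : ℝ, S.p 0 (x:ℂ) (w (x:ℂ) 0) = c + dz φ (x:ℂ) 0 := fun x => hpw _ (hrm x) 0 h0
    have e2 : (∫ x in (0:ℝ)..1, S.p 0 (x:ℂ) (w (x:ℂ) 0)) =
        ∫ x in (0:ℝ)..1, (c + dz φ (x:ℂ) 0) :=
      intervalIntegral.integral_congr (fun x _ => e1 x)
    change (∫ x in (0:ℝ)..1, S.p 0 (x:ℂ) (w (x:ℂ) 0)) = c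
    rw [e2]
    have hcont : Continuous (fun x : ℝ => c + dz φ (x:ℂ) 0) := by
      have h2 := (hP.hol 0 h0).continuousOn
      have h3 : Continuous (fun x : ℝ => (x:ℂ)) := Complex.continuous_ofReal
      exact h2.comp_continuous h3 hrm
    have h4 := intervalIntegral.integral_eq_sub_of_hasDerivAt (a := 0) (b := 1)
      (f := fun x : ℝ => c * x + φ (x:ℂ) 0) (f' := fun x : ℝ => c + dz φ (x:ℂ) 0)
      (fun x _ => by
        have h5 : HasDerivAt (fun z => c * z + φ z 0) (c * 1 + dz φ (x:ℂ) 0) (x:ℂ) :=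
          ((hasDerivAt_id (x:ℂ)).const_mul c).add (diffAt hφ.sh (hrm x) h0).hasDerivAt
        rw [mul_one] at h5
        exact h5.comp_ofReal)
      (hcont.intervalIntegrable 0 1)
    rw [h4]
    have h6 := hφ.sh.per 0 (by simpa using hrm 0) 0 h0
    rw [zero_add] at h6
    simp [h6]

end Pool.Agent.Helper69.FT
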